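import Pool.Agent.X264.GE.Rep

/-!
# Representations arising from étale cohomology: extensions, odd symmetric powers, tensor products
-/

set_option autoImplicit false

open Module TensorProduct

namespace Pool.Agent.X264.GE

open Pool.Agent.X264.ES

universe u

/-- The number fields `L ⊇ K` with their Galois groups, and the class of representations of `G_L`, and
of `G = G_K`, arising from étale cohomology (subquotients of `H^i(X)(j)` with `X` smooth projective
over `L`, resp. `K`). -/
structure Geo (Ω : Type u) [Field Ω] (G : Type u) [Group G] where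
  Fld : Type u
  sub : Fld → Subgroup G
  arises : ∀ L : Fld, ES.Rep Ω (sub L) → Prop
  arisesK : ES.Rep Ω G → Prop

variable {Ω : Type u} [Field Ω] {G : Type u} [Group G]

namespace Geo

variable (A : Geo Ω G)

/-- quotients -/
def HasQuotients : Prop :=
  ∀ (L : A.Fld) (R R' : ES.Rep Ω (A.sub L)), A.arises L R → Onto R R' → A.arises L R'

/-- tensor products (Künneth) -/
def HasTensor : Prop :=
  ∀ (L : A.Fld) (R R' : ES.Rep Ω (A.sub L)), A.arises L R → A.arises L R' →
    A.arises L (tensor R R')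

/-- duals (Poincaré duality) -/
def HasDual : Prop :=
  ∀ (L : A.Fld) (R : ES.Rep Ω (A.sub L)), A.arises L R → A.arises L (dual R)

/-- varieties over `L` as varieties over `K`: the cohomology is induced -/
def HasPushforward : Prop :=
  ∀ (L : A.Fld) (R' : ES.Rep Ω (A.sub L)), A.arises L R' →
    ∃ R : ES.Rep Ω G, ES.Rep.IsInduced (A.sub L) R' R ∧ A.arisesK R

/-- subrepresentations -/
def HasSub : Prop := ∀ R R' : ES.Rep Ω G, A.arisesK R' → Into R R' → A.arisesK R

/-- base change of varieties; there is a field `L` (for example `K`) -/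
def HasBaseChange : Prop :=
  (∃ _ : A.Fld, True) ∧ ∀ (L : A.Fld) (R : ES.Rep Ω G), A.arisesK R → A.arises L (R.res (A.sub L))

/-- The properties which are used. -/
structure IsKnown : Prop where
  quotients : A.HasQuotients
  tensor : A.HasTensor
  dual : A.HasDual
  pushforward : A.HasPushforward
  sub : A.HasSub
  baseChange : A.HasBaseChange

end Geo

/-- The symmetric powers `S n` of a two-dimensional representation `ρ`, the powers `δ n` of its
determinant, and the Clebsch-Gordan maps `S (n + 1) ⊗ S (n + 1) → S 2 ⊗ δ n` and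
`S (n + 2) ⊗ S 2 → S n ⊗ δ 2`. -/
structure IsSym (ρ : ES.Rep Ω G) (S δ : ℕ → ES.Rep Ω G) : Prop where
  one : Onto (S 1) ρ
  one' : Onto ρ (S 1)
  square : ∀ n, Onto (tensor (S (n + 1)) (S (n + 1))) (tensor (S 2) (δ n))
  down : ∀ n, Onto (tensor (S (n + 2)) (S 2)) (tensor (S n) (δ 2))
  nonzero : ∀ n, Nonzero (δ n)

namespace Geo

variable {A : Geo Ω G}

/-- Cancellation of a twist. -/
theorem cancel (hA : A.IsKnown) {L : A.Fld} {R S : ES.Rep Ω (A.sub L)} (hS : Nonzero S)
    (h : A.arises L S) (h2 : A.arises L (GE.tensor R S)) : A.arises L R :=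
  hA.quotients L _ _ (hA.tensor L _ _ h2 (hA.dual L S h)) (onto_cancel R S hS)

/-- `ρ` arises over `K` if and only if, for some number field `L ⊇ K`, some odd `n` and some nonzero
`σ` which arises over `L`, the representation `Sym^n(ρ) ⊗ σ` of `G_L` arises over `L`. -/
theorem main (hA : A.IsKnown) {ρ : ES.Rep Ω G} (hρ : ρ.Irreducible) {S δ : ℕ → ES.Rep Ω G}
    (hS : IsSym ρ S δ) (hδ : ∀ (L : A.Fld) (n : ℕ), A.arises L ((δ n).res (A.sub L))) :
    A.arisesK ρ ↔ ∃ (L : A.Fld) (m : ℕ) (σ : ES.Rep Ω (A.sub L)), Nonzero σ ∧ A.arises L σ ∧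
      A.arises L (GE.tensor ((S (2 * m + 1)).res (A.sub L)) σ) := by
  constructor
  · intro h
    obtain ⟨⟨L, -⟩, hb⟩ := hA.baseChange
    have h1 := hb L ρ h
    refine ⟨L, 0, ρ.res (A.sub L), hρ.1, h1, ?_⟩
    exact hA.tensor L _ _ (hA.quotients L _ _ h1 (onto_res (A.sub L) hS.one')) h1
  · rintro ⟨L, m, σ, hσ, hσ1, h⟩
    have h1 : A.arises L ((S (2 * m + 1)).res (A.sub L)) := cancel hA hσ hσ1 h
    have h2 : A.arises L ((S 2).res (A.sub L)) := by
      have e : A.arises L (GE.tensor ((S 2).res (A.sub L)) ((δ (2 * m)).res (A.sub L))) :=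
        hA.quotients L _ _ (hA.tensor L _ _ h1 h1) (onto_res (A.sub L) (hS.square (2 * m)))
      exact cancel hA (hS.nonzero (2 * m)) (hδ L _) e
    have h3 : ∀ m, A.arises L ((S (2 * m + 1)).res (A.sub L)) → A.arises L ((S 1).res (A.sub L)) := by
      intro m
      induction m with
      | zero => exact fun h => h
      | succ m ih =>
        intro h4
        apply ih
        have e : A.arises L
            (GE.tensor ((S (2 * m + 1)).res (A.sub L)) ((δ 2).res (A.sub L))) :=
          hA.quotients L _ _ (hA.tensor L _ _ h4 h2) (onto_res (A.sub L) (hS.down (2 * m + 1)))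
        exact cancel hA (hS.nonzero 2) (hδ L _) e
    have h5 : A.arises L (ρ.res (A.sub L)) :=
      hA.quotients L _ _ (h3 m h1) (onto_res (A.sub L) hS.one)
    obtain ⟨R, hi, hR⟩ := hA.pushforward L _ h5
    obtain ⟨x, hx⟩ := hρ.1
    have hm : (ρ.res (A.sub L)).HasMap (ρ.res (A.sub L)) := ⟨LinearMap.id, fun _ _ => rfl, x, hx⟩
    exact hA.sub ρ R hR (into_of_hasMap hρ (ES.Rep.hasMap_of_induced hi hm))

end Geo

/-- All Bianchi newforms: the group `G_K` for each imaginary quadratic field, the newforms with their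
`p`-adic representations. -/
structure Bianchi (Ω : Type u) [Field Ω] where
  Fld : Type u
  G : Fld → Type u
  [grp : ∀ K, Group (G K)]
  geo : ∀ K, Geo Ω (G K)
  Form : Fld → Type u
  gal : ∀ K, Form K → ES.Rep Ω (G K)
  S : ∀ K, Form K → ℕ → ES.Rep Ω (G K)
  δ : ∀ K, Form K → ℕ → ES.Rep Ω (G K)

attribute [instance] Bianchi.grp

namespace Bianchi

variable (W : Bianchi Ω)

/-- The properties which are used. -/
structure IsKnown : Prop where
  geo : ∀ K, (W.geo K).IsKnown
  irr : ∀ K f, (W.gal K f).Irreducible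
  sym : ∀ K f, IsSym (W.gal K f) (W.S K f) (W.δ K f)
  det : ∀ K f (L : (W.geo K).Fld) n, (W.geo K).arises L ((W.δ K f n).res ((W.geo K).sub L))

/-- `Sym^n(ρ_f) ⊗ σ` arises over `L`, for some number field `L ⊇ K`, some odd `n` and some nonzero
`σ` which arises over `L`. -/
def Weak (K : W.Fld) (f : W.Form K) : Prop :=
  ∃ (L : (W.geo K).Fld) (m : ℕ) (σ : ES.Rep Ω ((W.geo K).sub L)), Nonzero σ ∧
    (W.geo K).arises L σ ∧
      (W.geo K).arises L (tensor ((W.S K f (2 * m + 1)).res ((W.geo K).sub L)) σ)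

theorem main {W : Bianchi Ω} (h : W.IsKnown) (K : W.Fld) (f : W.Form K) :
    (W.geo K).arisesK (W.gal K f) ↔ W.Weak K f :=
  Geo.main (h.geo K) (h.irr K f) (h.sym K f) (h.det K f)

end Bianchi

end Pool.Agent.X264.GE
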