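import Pool.Agent.X264.ES.Rep

/-!
# Tensor products, duals and subquotients of representations
-/

set_option autoImplicit false

open Module TensorProduct

namespace Pool.Agent.X264.GE

open Pool.Agent.X264.ES

universe u

variable {Ω : Type u} [Field Ω] {G : Type u} [Group G]

/-- the tensor product -/
noncomputable def tensor (R S : ES.Rep Ω G) : ES.Rep Ω G :=
  ⟨R.V ⊗[Ω] S.V, Representation.tprod R.ρ S.ρ⟩

/-- the dual representation -/
def dual (R : ES.Rep Ω G) : ES.Rep Ω G := ⟨Module.Dual Ω R.V, Representation.dual R.ρ⟩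

/-- There is a surjective equivariant map `R → R'`. -/
def Onto (R R' : ES.Rep Ω G) : Prop :=
  ∃ φ : R.V →ₗ[Ω] R'.V, R.Equivariant R' φ ∧ Function.Surjective φ

/-- There is an injective equivariant map `R → R'`. -/
def Into (R R' : ES.Rep Ω G) : Prop :=
  ∃ φ : R.V →ₗ[Ω] R'.V, R.Equivariant R' φ ∧ Function.Injective φ

/-- `R` is nonzero. -/
def Nonzero (R : ES.Rep Ω G) : Prop := ∃ x : R.V, x ≠ 0

/-- `R` is a quotient of `(R ⊗ S) ⊗ S^∨` for nonzero `S`. -/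
theorem onto_cancel (R S : ES.Rep Ω G) (hS : Nonzero S) : Onto (tensor (tensor R S) (dual S)) R := by
  obtain ⟨w, hw⟩ := hS
  let f : (R.V ⊗[Ω] S.V) ⊗[Ω] Module.Dual Ω S.V →ₗ[Ω] R.V :=
    (TensorProduct.rid Ω R.V).toLinearMap ∘ₗ
      (LinearMap.lTensor R.V (contractRight Ω S.V)) ∘ₗ
        (TensorProduct.assoc Ω R.V S.V (Module.Dual Ω S.V)).toLinearMap
  have hf : ∀ (v : R.V) (w : S.V) (φ : Module.Dual Ω S.V), f ((v ⊗ₜ w) ⊗ₜ φ) = φ w • v := by
    intro v w φ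
    simp [f]
  refine ⟨f, ?_, ?_⟩
  · intro g x
    have : f ∘ₗ (tensor (tensor R S) (dual S)).ρ g = (R.ρ g) ∘ₗ f := by
      apply TensorProduct.ext_threefold
      intro v w φ
      show f ((R.ρ g v ⊗ₜ S.ρ g w) ⊗ₜ (φ ∘ₗ S.ρ g⁻¹)) = R.ρ g (f ((v ⊗ₜ w) ⊗ₜ φ))
      rw [hf, hf, map_smul]
      have e : S.ρ g⁻¹ (S.ρ g w) = w := by
        rw [← Module.End.mul_apply, ← map_mul, inv_mul_cancel, map_one]
        rfl
      have e2 : (LinearMap.comp (show S.V →ₗ[Ω] Ω from φ) (S.ρ g⁻¹)) (S.ρ g w) =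
          (show S.V →ₗ[Ω] Ω from φ) w := congrArg (show S.V →ₗ[Ω] Ω from φ) e
      exact congrArg (fun a : Ω => a • R.ρ g v) e2
    exact LinearMap.congr_fun this x
  · intro v
    obtain ⟨φ₀, h₀⟩ := Module.Projective.exists_dual_ne_zero Ω hw
    let φ : Module.Dual Ω S.V := (φ₀ w)⁻¹ • φ₀
    have hφ : φ w = 1 := inv_mul_cancel₀ h₀
    refine ⟨(v ⊗ₜ w) ⊗ₜ φ, ?_⟩
    have e := hf v w φ
    rw [hφ, one_smul] at e
    exact e

/-- An irreducible representation with a nonzero map to `R` embeds into `R`. -/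
theorem into_of_hasMap {W R : ES.Rep Ω G} (h : W.Irreducible) (hm : W.HasMap R) : Into W R := by
  obtain ⟨φ, hφ, x, hx⟩ := hm
  refine ⟨φ, hφ, ?_⟩
  rcases h.2 (LinearMap.ker φ) (fun g y hy => by
    rw [LinearMap.mem_ker] at hy ⊢
    rw [hφ, hy]
    simp [ES.Rep.act]) with h1 | h1
  · exact LinearMap.ker_eq_bot.1 h1
  · exact absurd (by rw [← LinearMap.mem_ker, h1]; trivial : φ x = 0) hx

theorem onto_res {R R' : ES.Rep Ω G} (H : Subgroup G) (h : Onto R R') : Onto (R.res H) (R'.res H) := by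
  obtain ⟨φ, hφ, hs⟩ := h
  exact ⟨φ, fun g x => hφ g x, hs⟩

end Pool.Agent.X264.GE
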